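import Pool.Agent.H.MP_e4c1d4_an.D

set_option autoImplicit false

open scoped Laplacian

namespace Pool.Agent.Results.MP_e4c1d4_an.Yes

abbrev E (n : ℕ) := EuclideanSpace ℝ (Fin (n + 1))

/-- The last coordinate. -/
def ht {n : ℕ} (x : E n) : ℝ := x (Fin.last n)

open Pool.Agent.H.MP_0f8a1e_an Pool.Agent.H.MP_e4c1d4_an in
theorem result (n : ℕ) (hn : 1 ≤ n) (u : E n → ℝ)
    (h2 : ContDiffOn ℝ 2 u {x | 0 < ht x}) (hc : ContinuousOn u {x | 0 ≤ ht x})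
    (he : ∀ x, 0 < ht x → -Δ u x = u x - 1) (h0 : ∀ x, ht x = 0 → u x = 0)
    (hH : ∀ M > 0, ∃ C > 0, ∀ x, 0 ≤ ht x → ht x ≤ M → 0 ≤ u x ∧ u x ≤ C) :
    ∀ x, 0 ≤ ht x → u x = 1 - Real.cos (ht x) := by
  have : Nonempty (Fin n) := ⟨⟨0, hn⟩⟩
  have o : IsOpen {x : E n | 0 < ht x} := isOpen_lt continuous_const (by unfold ht; fun_prop)
  exact main n (fun x hx => h2.contDiffAt (o.mem_nhds hx)) hc
    (fun x hx => by have := he x hx; rw [lap_Δ] at this; linarith) h0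
    fun M hM => (hH M hM).imp fun C h => h.2

end Pool.Agent.Results.MP_e4c1d4_an.Yes
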